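import Pool.Agent.TH198.AT.Stmts

/-!
# Derivative of the heat extension in the space variable
-/

set_option autoImplicit false

open MeasureTheory ProbabilityTheory Set

namespace Pool.TH811.AT

open Pool.TH198.AT

/-- a function with bounded derivative is integrable along a Gaussian variable -/
theorem integrable_lin (f f1 : ℝ → ℝ) (C : ℝ) (hf : ∀ x, HasDerivAt f (f1 x) x)
    (hC : ∀ x, |f1 x| ≤ C) (σ x : ℝ) :
    Integrable (fun y => f (x + σ * y)) (gaussianReal 0 1) := by
  have hcont : Continuous f := continuous_iff_continuousAt.2 fun x => (hf x).continuousAt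
  have hlip : ∀ a b : ℝ, |f b - f a| ≤ C * |b - a| := by
    intro a b
    have := Convex.norm_image_sub_le_of_norm_hasDerivWithin_le (f := f) (f' := f1) (C := C)
      (s := univ) (x := a) (y := b) (fun z _ => (hf z).hasDerivWithinAt)
      (fun z _ => by rw [Real.norm_eq_abs]; exact hC z) convex_univ (mem_univ _) (mem_univ _)
    simpa [Real.norm_eq_abs] using this
  have hid : Integrable (fun y : ℝ => y) (gaussianReal 0 1) :=
    (memLp_id_gaussianReal (μ := 0) (v := 1) 1).integrable (by norm_num)
  refine Integrable.mono' (g := fun y => |f x| + C * |σ| * |y|)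
    ((integrable_const _).add (hid.abs.const_mul _))
    (hcont.comp (by fun_prop)).aestronglyMeasurable ?_
  filter_upwards with y
  rw [Real.norm_eq_abs]
  have h1 := hlip x (x + σ * y)
  have h2 : x + σ * y - x = σ * y := by ring
  rw [h2, abs_mul] at h1
  have h3 : |f (x + σ * y)| ≤ |f x| + |f (x + σ * y) - f x| := by
    have := abs_add_le (f x) (f (x + σ * y) - f x)
    have h4 : f x + (f (x + σ * y) - f x) = f (x + σ * y) := by ring
    rwa [h4] at this
  calc |f (x + σ * y)| ≤ |f x| + |f (x + σ * y) - f x| := h3
    _ ≤ |f x| + C * (|σ| * |y|) := by gcongr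
    _ = |f x| + C * |σ| * |y| := by ring

theorem t_HEATX : St_HEATX := by
  intro f f1 C hf hc hC σ x
  have hcont : Continuous f := continuous_iff_continuousAt.2 fun x => (hf x).continuousAt
  have h := hasDerivAt_integral_of_dominated_loc_of_deriv_le (μ := gaussianReal 0 1)
    (F := fun x y => f (x + σ * y)) (F' := fun x y => f1 (x + σ * y)) (x₀ := x)
    (s := univ) (bound := fun _ => C) Filter.univ_mem
    (Filter.Eventually.of_forall fun z => (hcont.comp (by fun_prop)).aestronglyMeasurable)
    (integrable_lin f f1 C hf hC σ x)
    (hc.comp (by fun_prop)).aestronglyMeasurable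
    (Filter.Eventually.of_forall fun y z _ => by rw [Real.norm_eq_abs]; exact hC _)
    (integrable_const _)
    (Filter.Eventually.of_forall fun y z _ => by
      have h1 : HasDerivAt (fun z => z + σ * y) 1 z := (hasDerivAt_id z).add_const _
      have h2 := (hf (z + σ * y)).comp z h1
      rw [mul_one] at h2
      exact h2)
  exact h.2

end Pool.TH811.AT
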